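import Pool.Agent.H601.FP.Stm

/-!
# Fibres of the logarithmic derivative
-/

namespace Pool.Agent.H48.FP

open Pool.Agent.H601.FP

/-- the derivative of a quotient of power series with the same logarithmic derivative modulo `X ^ n` -/
lemma deriv_quot {p : ℕ} [Fact p.Prime] (n : ℕ) (F H : PowerSeries (ZMod p))
    (hF : PowerSeries.constantCoeff F ≠ 0) (hH : PowerSeries.constantCoeff H ≠ 0)
    (h : ∀ i < n, PowerSeries.coeff i (dlog F) = PowerSeries.coeff i (dlog H)) :
    PowerSeries.X ^ n ∣ PowerSeries.derivative (ZMod p) (F * H⁻¹) := by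
  obtain ⟨G, hG⟩ : ∃ G, G = F * H⁻¹ := ⟨_, rfl⟩
  have h1 : G * H = F := by
    rw [hG, mul_assoc, mul_comm H⁻¹, PowerSeries.mul_inv_cancel H hH, mul_one]
  have h2 : PowerSeries.derivative (ZMod p) F =
      G * PowerSeries.derivative (ZMod p) H + H * PowerSeries.derivative (ZMod p) G := by
    rw [← h1, Derivation.leibniz]
    rfl
  have h3 : PowerSeries.derivative (ZMod p) F = dlog F * F := by
    unfold dlog
    rw [mul_assoc, mul_comm F⁻¹, PowerSeries.mul_inv_cancel F hF, mul_one]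
  have h4 : PowerSeries.derivative (ZMod p) H = dlog H * H := by
    unfold dlog
    rw [mul_assoc, mul_comm H⁻¹, PowerSeries.mul_inv_cancel H hH, mul_one]
  have h5 : PowerSeries.derivative (ZMod p) G = (dlog F - dlog H) * (F * H⁻¹) := by
    have h6 : H * PowerSeries.derivative (ZMod p) G = (dlog F - dlog H) * F := by
      have h7 : H * PowerSeries.derivative (ZMod p) G =
          dlog F * F - G * (dlog H * H) := by
        rw [← h3, ← h4, h2]
        ring
      rw [h7, ← h1]
      ring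
    have h8 : PowerSeries.derivative (ZMod p) G =
        (H * H⁻¹) * PowerSeries.derivative (ZMod p) G := by
      rw [PowerSeries.mul_inv_cancel H hH, one_mul]
    rw [h8]
    calc (H * H⁻¹) * PowerSeries.derivative (ZMod p) G
        = (H * PowerSeries.derivative (ZMod p) G) * H⁻¹ := by ring
      _ = _ := by rw [h6]; ring
  have h9 : PowerSeries.X ^ n ∣ dlog F - dlog H := by
    rw [PowerSeries.X_pow_dvd_iff]
    intro i hi
    rw [map_sub, h i hi, sub_self]
  rw [← hG, h5]
  exact Dvd.dvd.mul_right h9 _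

lemma coeff_quot {p : ℕ} [Fact p.Prime] (n : ℕ) (F H : PowerSeries (ZMod p))
    (hF : PowerSeries.constantCoeff F ≠ 0) (hH : PowerSeries.constantCoeff H ≠ 0)
    (h : ∀ i < n, PowerSeries.coeff i (dlog F) = PowerSeries.coeff i (dlog H))
    (j : ℕ) (hj1 : 1 ≤ j) (hj : j ≤ n) (hp : ¬ p ∣ j) : PowerSeries.coeff j (F * H⁻¹) = 0 := by
  have h1 := PowerSeries.X_pow_dvd_iff.1 (deriv_quot n F H hF hH h) (j - 1) (by omega)
  rw [PowerSeries.coeff_derivative] at h1
  have h2 : j - 1 + 1 = j := by omega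
  rw [h2] at h1
  have h3 : ((j - 1 : ℕ) : ZMod p) + 1 = (j : ZMod p) := by
    have h4 : ((j - 1 + 1 : ℕ) : ZMod p) = (j : ZMod p) := by rw [h2]
    rw [← h4, Nat.cast_add, Nat.cast_one]
  rw [h3] at h1
  rcases mul_eq_zero.1 h1 with h4 | h4
  · exact h4
  · exact absurd ((ZMod.natCast_eq_zero_iff j p).1 h4) hp

/-- polynomials of degree at most `n` which agree modulo `X ^ (n + 1)` -/
lemma eq_of_dvd {p : ℕ} [Fact p.Prime] (n : ℕ) (f g : Polynomial (ZMod p)) (hf : f.natDegree ≤ n)
    (hg : g.natDegree ≤ n)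
    (h : PowerSeries.X ^ (n + 1) ∣ ((f : PowerSeries (ZMod p)) - (g : PowerSeries (ZMod p)))) :
    f = g := by
  ext i
  by_cases hi : i ≤ n
  · have h1 := PowerSeries.X_pow_dvd_iff.1 h i (by omega)
    rw [map_sub, Polynomial.coeff_coe, Polynomial.coeff_coe, sub_eq_zero] at h1
    exact h1
  · rw [Polynomial.coeff_eq_zero_of_natDegree_lt (by omega),
      Polynomial.coeff_eq_zero_of_natDegree_lt (by omega)]

lemma coe_dvd {p : ℕ} [Fact p.Prime] (k : ℕ) (f : Polynomial (ZMod p))
    (h : Polynomial.X ^ k ∣ f) : PowerSeries.X ^ k ∣ (f : PowerSeries (ZMod p)) := by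
  obtain ⟨g, rfl⟩ := h
  refine ⟨(g : PowerSeries (ZMod p)), ?_⟩
  rw [Polynomial.coe_mul, Polynomial.coe_pow, Polynomial.coe_X]

theorem s_fib : S_fib := by
  intro p _ n m₁ m₂ hm₁ hm₂ W v
  obtain ⟨Z, hZ⟩ : ∃ Z : Set (Polynomial (ZMod p) × Polynomial (ZMod p)),
    Z = {z | z.1 ∈ Pr p m₁ ∧ z.2 ∈ Pr p m₂ ∧
    Polynomial.X ^ (n + 1) ∣ z.1 * z.2 - W ∧ ∀ i < n, lc z.1 i = v i} := ⟨_, rfl⟩
  rw [← hZ]
  rcases Z.eq_empty_or_nonempty with h0 | ⟨z₀, hz₀⟩
  · rw [h0, Set.ncard_empty]
    exact Nat.zero_le _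
  have hmem : ∀ z, z ∈ Z ↔ (z.1 ∈ Pr p m₁ ∧ z.2 ∈ Pr p m₂ ∧
    Polynomial.X ^ (n + 1) ∣ z.1 * z.2 - W ∧ ∀ i < n, lc z.1 i = v i) := fun z => by
    rw [hZ]
    rfl
  have hcc : ∀ f : Polynomial (ZMod p), f.coeff 0 = 1 →
      PowerSeries.constantCoeff (f : PowerSeries (ZMod p)) = 1 := by
    intro f hf
    rw [← PowerSeries.coeff_zero_eq_constantCoeff_apply, Polynomial.coeff_coe, hf]
  obtain ⟨hx₀, _, _, hv₀⟩ := (hmem z₀).1 hz₀
  have hc₀ := hcc z₀.1 hx₀.2.2
  have hc₀' : PowerSeries.constantCoeff (z₀.1 : PowerSeries (ZMod p)) ≠ 0 := by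
    rw [hc₀]
    exact one_ne_zero
  have hinj : Set.InjOn (fun z : Polynomial (ZMod p) × Polynomial (ZMod p) =>
      fun k : Fin (n / p) => PowerSeries.coeff (p * (k.1 + 1))
        ((z.1 : PowerSeries (ZMod p)) * (z₀.1 : PowerSeries (ZMod p))⁻¹)) Z := by
    rintro ⟨x, y⟩ hz ⟨x', y'⟩ hz' heq
    obtain ⟨hx, hy, hW, hv⟩ := (hmem _).1 hz
    obtain ⟨hx', hy', hW', hv'⟩ := (hmem _).1 hz'
    simp only at hx hy hW hv hx' hy' hW' hv' heq
    have hc := hcc x hx.2.2
    have hc' := hcc x' hx'.2.2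
    have hne : PowerSeries.constantCoeff (x : PowerSeries (ZMod p)) ≠ 0 := by
      rw [hc]
      exact one_ne_zero
    have hne' : PowerSeries.constantCoeff (x' : PowerSeries (ZMod p)) ≠ 0 := by
      rw [hc']
      exact one_ne_zero
    -- the quotients agree
    have h1 : PowerSeries.X ^ (n + 1) ∣
        (x : PowerSeries (ZMod p)) * (z₀.1 : PowerSeries (ZMod p))⁻¹ -
        (x' : PowerSeries (ZMod p)) * (z₀.1 : PowerSeries (ZMod p))⁻¹ := by
      rw [PowerSeries.X_pow_dvd_iff]
      intro j hj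
      rw [map_sub, sub_eq_zero]
      rcases Nat.eq_zero_or_pos j with rfl | hj0
      · rw [PowerSeries.coeff_zero_eq_constantCoeff_apply,
          PowerSeries.coeff_zero_eq_constantCoeff_apply, map_mul, map_mul, hc, hc']
      · by_cases hpj : p ∣ j
        · obtain ⟨k, rfl⟩ := hpj
          have hp0 : 0 < p := (Fact.out : p.Prime).pos
          have hk0 : 0 < k := Nat.pos_of_mul_pos_left hj0
          have hk : k - 1 < n / p := by
            have : k ≤ n / p := by
              rw [Nat.le_div_iff_mul_le hp0, mul_comm]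
              omega
            omega
          have h2 := congrFun heq ⟨k - 1, hk⟩
          simp only at h2
          have h3 : k - 1 + 1 = k := by omega
          rw [h3] at h2
          exact h2
        · rw [coeff_quot n _ _ hne hc₀' (fun i hi => ?_) j hj0 (by omega) hpj,
            coeff_quot n _ _ hne' hc₀' (fun i hi => ?_) j hj0 (by omega) hpj]
          · exact (hv' i hi).trans (hv₀ i hi).symm
          · exact (hv i hi).trans (hv₀ i hi).symm
    have hxx : x = x' := by
      refine eq_of_dvd n x x' (by rw [hx.2.1]; exact hm₁) (by rw [hx'.2.1]; exact hm₁) ?_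
      have h2 : (x : PowerSeries (ZMod p)) - (x' : PowerSeries (ZMod p)) =
          ((x : PowerSeries (ZMod p)) * (z₀.1 : PowerSeries (ZMod p))⁻¹ -
        (x' : PowerSeries (ZMod p)) * (z₀.1 : PowerSeries (ZMod p))⁻¹) *
          (z₀.1 : PowerSeries (ZMod p)) := by
        rw [← sub_mul, mul_assoc, mul_comm (z₀.1 : PowerSeries (ZMod p))⁻¹,
          PowerSeries.mul_inv_cancel _ hc₀', mul_one]
      rw [h2]
      exact Dvd.dvd.mul_right h1 _
    subst hxx
    have hyy : y = y' := by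
      refine eq_of_dvd n y y' (by rw [hy.2.1]; exact hm₂) (by rw [hy'.2.1]; exact hm₂) ?_
      have h2 : Polynomial.X ^ (n + 1) ∣ x * (y - y') := by
        have h3 := dvd_sub hW hW'
        have h4 : x * y - W - (x * y' - W) = x * (y - y') := by ring
        rwa [h4] at h3
      have h3 := coe_dvd (n + 1) _ h2
      rw [Polynomial.coe_mul, Polynomial.coe_sub] at h3
      have h4 : (y : PowerSeries (ZMod p)) - (y' : PowerSeries (ZMod p)) =
          ((x : PowerSeries (ZMod p)) * ((y : PowerSeries (ZMod p)) -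
            (y' : PowerSeries (ZMod p)))) * (x : PowerSeries (ZMod p))⁻¹ := by
        rw [mul_comm (x : PowerSeries (ZMod p)), mul_assoc, PowerSeries.mul_inv_cancel _ hne,
          mul_one]
      rw [h4]
      exact Dvd.dvd.mul_right h3 _
    rw [hyy]
  rw [← hinj.ncard_image]
  refine (Set.ncard_le_ncard (Set.subset_univ _) Set.finite_univ).trans ?_
  rw [Set.ncard_univ, Nat.card_eq_fintype_card, Fintype.card_fun, ZMod.card, Fintype.card_fin]

end Pool.Agent.H48.FP
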